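import Pool.Agent.Helper56.RZ.GoalsA

/-!
# The exact identity for the central exponents (packet RZ-E3)
-/

set_option autoImplicit false

open Set Filter Topology MeasureTheory

namespace Pool.Agent.Helper3.RZ

open Pool.Agent.Helper56.RZ

theorem e3 (hE2 : StmtE2) (hJ1 : StmtJ1) (hJ2 : StmtJ2) (hJ3 : StmtJ3) : StmtE3 := by
  intro X _ _ _ _ K C H e e' P Q Q' Γ Γ' m _ hP hQ hQ' hΓ hΓ' hC hH
  obtain ⟨inj1, eq1⟩ := hE2 X K C H e P Q Γ m hP hQ hΓ hC hH
  have hHs : MeasurePreserving H.inv.f m m := by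
    have h := MeasurePreserving.symm (μa := m) (μb := m) H.f.toMeasurableEquiv hH
    exact h
  obtain ⟨inj2, eq2⟩ := hE2 X K C H.inv e' P Q' Γ' m hP hQ' hΓ' hC hHs
  -- the functions
  set k : X → End K := fun x => P (H.f x) * H.A x * Γ x with hk
  set k' : X → End K := fun y => P (H.f.symm y) * H.B y * Γ' y with hk'
  have hkc : Continuous k := ((hP.cont.comp H.f.continuous).mul H.contA).mul hΓ.cont
  have hkc' : Continuous k' := ((hP.cont.comp H.f.symm.continuous).mul H.contB).mul hΓ'.cont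
  have inj1' : ∀ x v, P x v = v → k x v = 0 → v = 0 := fun x v h1 h2 => inj1 x v h1 h2
  have inj2' : ∀ x v, P x v = v → k' x v = 0 → v = 0 := fun x v h1 h2 => inj2 x v h1 h2
  have c1 : Continuous (fun x => Real.log (Jac (k x) (P x))) :=
    hJ3 X K k P hkc hP.cont hP.PP inj1'
  have c2 : Continuous (fun x => Real.log (Jac (k' x) (P x))) :=
    hJ3 X K k' P hkc' hP.cont hP.PP inj2'
  have c2' : Continuous (fun x => Real.log (Jac (k' (H.f x)) (P (H.f x)))) :=
    c2.comp H.f.continuous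
  have i1 : Integrable (fun x => Real.log (Jac (k x) (P x))) m :=
    c1.integrable_of_hasCompactSupport (HasCompactSupport.of_compactSpace _)
  have i2 : Integrable (fun x => Real.log (Jac (k' (H.f x)) (P (H.f x)))) m :=
    c2'.integrable_of_hasCompactSupport (HasCompactSupport.of_compactSpace _)
  have eq2' : Lam (C.comp H.inv e') Q' m - Lam C P m
      = ∫ x, Real.log (Jac (k' (H.f x)) (P (H.f x))) ∂m := by
    have h1 := hH.integral_comp H.f.measurableEmbedding (fun y => Real.log (Jac (k' y) (P y)))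
    rw [h1]
    exact eq2
  have eq1' : Lam (C.comp H e) Q m - Lam C P m = ∫ x, Real.log (Jac (k x) (P x)) ∂m := eq1
  have hsum : Lam (C.comp H e) Q m + Lam (C.comp H.inv e') Q' m - 2 * Lam C P m
      = ∫ x, (Real.log (Jac (k x) (P x)) + Real.log (Jac (k' (H.f x)) (P (H.f x)))) ∂m := by
    rw [integral_add i1 i2, ← eq1', ← eq2']
    ring
  rw [hsum]
  congr 1
  funext x
  have hPPx := hP.PP x
  have hPPy := hP.PP (H.f x)
  have p1 : 0 < Jac (k x) (P x) := (hJ2 K (k x) (P x) hPPx).2.1 (inj1' x)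
  have p2 : 0 < Jac (k' (H.f x)) (P (H.f x)) :=
    (hJ2 K (k' (H.f x)) (P (H.f x)) hPPy).2.1 (inj2' (H.f x))
  -- ranges
  have hky : ∀ v, P (H.f x) (k x v) = k x v := by
    intro v
    have : P (H.f x) * k x = k x := by
      simp only [hk]
      rw [← mul_assoc, ← mul_assoc, hPPy]
    exact DFunLike.congr_fun this v
  have hkx : ∀ v, P x (k' (H.f x) v) = k' (H.f x) v := by
    intro v
    have : P x * k' (H.f x) = k' (H.f x) := by
      simp only [hk', Homeomorph.symm_apply_apply]
      rw [← mul_assoc, ← mul_assoc, hPPx]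
    exact DFunLike.congr_fun this v
  have rank_le : ∀ (R S T : End K), R * R = R → (∀ v, S (T v) = T v) →
      (∀ v, R v = v → T v = 0 → v = 0) →
      Module.finrank ℝ (LinearMap.range (R : E K →ₗ[ℝ] E K)) ≤
        Module.finrank ℝ (LinearMap.range (S : E K →ₗ[ℝ] E K)) := by
    intro R S T hR hST hinj
    let φ : LinearMap.range (R : E K →ₗ[ℝ] E K) →ₗ[ℝ] LinearMap.range (S : E K →ₗ[ℝ] E K) :=
      ((T : E K →ₗ[ℝ] E K) ∘ₗ (LinearMap.range (R : E K →ₗ[ℝ] E K)).subtype).codRestrict _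
        (fun v => ⟨T v.1, hST v.1⟩)
    apply LinearMap.finrank_le_finrank_of_injective (f := φ)
    rw [← LinearMap.ker_eq_bot, LinearMap.ker_eq_bot']
    rintro ⟨v, w, hw⟩ hv
    have hv' : T v = 0 := congrArg Subtype.val hv
    have hRv : R v = v := by
      rw [← hw]
      exact DFunLike.congr_fun hR w
    have := hinj v hRv hv'
    exact Subtype.ext this
  have hrank : Module.finrank ℝ (LinearMap.range (P x : E K →ₗ[ℝ] E K)) =
      Module.finrank ℝ (LinearMap.range (P (H.f x) : E K →ₗ[ℝ] E K)) :=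
    le_antisymm (rank_le _ _ (k x) hPPx hky (inj1' x))
      (rank_le _ _ (k' (H.f x)) hPPy hkx (inj2' (H.f x)))
  have hJ := hJ1 K (k' (H.f x)) (k x) (P x) (P (H.f x)) hPPx hPPy
    (by
      simp only [hk]
      rw [← mul_assoc, ← mul_assoc, hPPy]) (inj1' x) hrank
  rw [add_comm, ← Real.log_mul p2.ne' p1.ne', ← hJ]
  have hTP : k' (H.f x) * k x * P x = k' (H.f x) * k x := by
    have h1 : k x * P x = k x := by
      simp only [hk]
      rw [mul_assoc, hΓ.GP]
    rw [mul_assoc, h1]
  have hPT : P x * (k' (H.f x) * k x) * P x = k' (H.f x) * k x * P x := by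
    have : P x * k' (H.f x) = k' (H.f x) := by
      simp only [hk', Homeomorph.symm_apply_apply]
      rw [← mul_assoc, ← mul_assoc, hPPx]
    rw [← mul_assoc, this]
  have hfin := (hJ2 K (k' (H.f x) * k x) (P x) hPPx).1 hPT
  rw [hfin, hTP]
  have hform : k' (H.f x) * k x + 1 - P x
      = 1 + (P x * H.B (H.f x) * Γ' (H.f x) * P (H.f x) * H.A x * Γ x - P x) := by
    simp only [hk, hk', Homeomorph.symm_apply_apply]
    noncomm_ring
  rw [hform]

end Pool.Agent.Helper3.RZ
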