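import Pool.Agent.Helper56.RZ.GoalsD

/-!
# Packet RE of the project RZ: covering by Bowen balls
-/

set_option autoImplicit false

open Set Filter Topology MeasureTheory

open scoped ContDiff

namespace Pool.Agent.Helper3.RZ

open Pool.Agent.Helper56.RZ

section re
variable {K u : ℕ} {M : Set (E K)} (D : Coc M K) (q : ℕ) (g : E u → M)

/-- the orbit segment of the point with the parameter `a` -/
noncomputable def reF (a : E u) : Fin (q + 1) → E K := fun j => (D.f^[(j : ℕ)] (g a) : E K)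

theorem reF_dist (a a' : E u) (δ : ℝ) (hδ : 0 ≤ δ) :
    dist (reF D q g a) (reF D q g a') ≤ δ ↔
      ∀ j ≤ q, ‖(D.f^[j] (g a) : E K) - D.f^[j] (g a')‖ ≤ δ := by
  rw [dist_pi_le_iff hδ]
  constructor
  · intro h j hj
    have h1 := h ⟨j, by omega⟩
    rw [dist_eq_norm] at h1
    exact h1
  · intro h j
    rw [dist_eq_norm]
    exact h j (by omega)

theorem reF_tb (hM : IsCompact M) (A : Set (E u)) : TotallyBounded (reF D q g '' A) := by
  have h1 : IsCompact (Set.pi Set.univ (fun _ : Fin (q + 1) => M)) :=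
    isCompact_univ_pi (fun _ => hM)
  refine h1.totallyBounded.subset ?_
  rintro _ ⟨a, _, rfl⟩ j _
  exact (D.f^[(j : ℕ)] (g a)).2

theorem re_max (hM : IsCompact M) (A : Set (E u)) (δ : ℝ) (hδ : 0 < δ) :
    ∃ F : Finset (E u), (∀ a ∈ F, a ∈ A) ∧
      (∀ a ∈ F, ∀ a' ∈ F, a ≠ a' → δ < dist (reF D q g a) (reF D q g a')) ∧
      ∀ a ∈ A, ∃ b ∈ F, dist (reF D q g a) (reF D q g b) ≤ δ := by
  classical
  obtain ⟨t, ht, hcov⟩ := Metric.totallyBounded_iff.1 (reF_tb D q g hM A) (δ / 2) (by linarith)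
  have hcard : ∀ F : Finset (E u), (∀ a ∈ F, a ∈ A) →
      (∀ a ∈ F, ∀ a' ∈ F, a ≠ a' → δ < dist (reF D q g a) (reF D q g a')) →
      F.card ≤ ht.toFinset.card := by
    intro F h1 h2
    have h3 : ∀ a ∈ F, ∃ y ∈ ht.toFinset, dist (reF D q g a) y < δ / 2 := by
      intro a ha
      have := hcov (mem_image_of_mem _ (h1 a ha))
      simp only [mem_iUnion, Metric.mem_ball, exists_prop] at this
      obtain ⟨y, hy, hy2⟩ := this
      exact ⟨y, by simpa using hy, hy2⟩
    choose! y hy hy2 using h3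
    refine Finset.card_le_card_of_injOn y hy ?_
    intro a ha b hb hab
    by_contra hne
    have h4 := h2 a ha b hb hne
    have h5 : dist (reF D q g a) (reF D q g b) ≤ dist (reF D q g a) (y a) +
        dist (reF D q g b) (y a) := dist_triangle_right _ _ _
    have h6 := hy2 a ha
    have h7 := hy2 b hb
    rw [← (show y a = y b from hab)] at h7
    linarith
  -- maximal cardinality
  let p : ℕ → Prop := fun n => ∃ F : Finset (E u), (∀ a ∈ F, a ∈ A) ∧
      (∀ a ∈ F, ∀ a' ∈ F, a ≠ a' → δ < dist (reF D q g a) (reF D q g a')) ∧ F.card = n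
  have hp0 : p 0 := ⟨∅, by simp, by simp, by simp⟩
  have hmax := Nat.findGreatest_spec (P := p) (Nat.zero_le ht.toFinset.card) hp0
  obtain ⟨F, h1, h2, h3⟩ := hmax
  refine ⟨F, h1, h2, ?_⟩
  intro a ha
  by_contra hcon
  push Not at hcon
  have haF : a ∉ F := by
    intro h
    have := hcon a h
    rw [dist_self] at this
    linarith
  have h4 : p (F.card + 1) := by
    refine ⟨insert a F, ?_, ?_, ?_⟩
    · intro b hb
      rcases Finset.mem_insert.1 hb with rfl | hb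
      · exact ha
      · exact h1 b hb
    · intro b hb c hc hbc
      rcases Finset.mem_insert.1 hb with hb1 | hb1
      · rcases Finset.mem_insert.1 hc with hc1 | hc1
        · exact absurd (hb1.trans hc1.symm) hbc
        · rw [hb1]; exact hcon c hc1
      · rcases Finset.mem_insert.1 hc with hc1 | hc1
        · rw [hc1, dist_comm]; exact hcon b hb1
        · exact h2 b hb1 c hc1 hbc
    · exact Finset.card_insert_of_notMem haF
  obtain ⟨F', h5, h6, h7⟩ := h4
  have h8 := hcard F' h5 h6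
  have h9 := Nat.le_findGreatest (P := p) (n := ht.toFinset.card) (m := F.card + 1)
    (by omega) ⟨F', h5, h6, h7⟩
  omega

theorem re_meas (r δ : ℝ) (hg : ContinuousOn g (Metric.ball 0 r)) (b : E u) :
    MeasurableSet {a : E u | ‖a‖ < r ∧
      ∀ j ≤ q, ‖(D.f^[j] (g a) : E K) - D.f^[j] (g b)‖ ≤ δ} := by
  have h1 : ∀ j : ℕ, MeasurableSet {a : E u | ‖a‖ < r ∧
      ‖(D.f^[j] (g a) : E K) - D.f^[j] (g b)‖ ≤ δ} := by
    intro j
    have hc : ContinuousOn (fun a : E u => ‖(D.f^[j] (g a) : E K) - D.f^[j] (g b)‖)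
        (Metric.ball 0 r) := by
      have h2 : Continuous (fun x : M => ‖(D.f^[j] x : E K) - D.f^[j] (g b)‖) :=
        ((continuous_subtype_val.comp (D.f.continuous.iterate j)).sub continuous_const).norm
      exact h2.comp_continuousOn hg
    have h3 : {a : E u | ‖a‖ < r ∧ ‖(D.f^[j] (g a) : E K) - D.f^[j] (g b)‖ ≤ δ} =
        Metric.ball 0 r \ (Metric.ball 0 r ∩
          (fun a : E u => ‖(D.f^[j] (g a) : E K) - D.f^[j] (g b)‖) ⁻¹' Set.Ioi δ) := by
      ext a
      simp only [mem_ofPred_eq, Set.mem_sdiff, mem_inter_iff, mem_preimage, mem_Ioi,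
        mem_ball_zero_iff]
      constructor
      · rintro ⟨h4, h5⟩
        exact ⟨h4, fun h => absurd h.2 (not_lt.2 h5)⟩
      · rintro ⟨h4, h5⟩
        refine ⟨h4, ?_⟩
        by_contra h6
        exact h5 ⟨h4, not_le.1 h6⟩
    rw [h3]
    exact Metric.isOpen_ball.measurableSet.diff
      (hc.isOpen_inter_preimage Metric.isOpen_ball isOpen_Ioi).measurableSet
  have h2 : {a : E u | ‖a‖ < r ∧
      ∀ j ≤ q, ‖(D.f^[j] (g a) : E K) - D.f^[j] (g b)‖ ≤ δ} =
      ⋂ j ∈ Finset.range (q + 1), {a : E u | ‖a‖ < r ∧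
        ‖(D.f^[j] (g a) : E K) - D.f^[j] (g b)‖ ≤ δ} := by
    ext a
    simp only [mem_ofPred_eq, mem_iInter, Finset.mem_range]
    constructor
    · rintro ⟨h3, h4⟩ j hj
      exact ⟨h3, h4 j (by omega)⟩
    · intro h3
      exact ⟨(h3 0 (by omega)).1, fun j hj => (h3 j (by omega)).2⟩
  rw [h2]
  exact Finset.measurableSet_biInter _ (fun j _ => h1 j)

end re

/-- packet RE -/
theorem re : StmtRCC → StmtRE := by
  intro hRCC K u M hM D S U h8 r lam ε δ1 hr hlam hε hδ1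
  obtain ⟨δ0, hδ0, hR⟩ := hRCC K u M hM D S U h8 r lam ε hr hlam hε
  have hδ : 0 < min δ0 (δ1 / 2) := lt_min hδ0 (by linarith)
  obtain ⟨C, hC, hR2⟩ := hR (min δ0 (δ1 / 2)) hδ (min_le_left _ _)
  have hδ2 : min δ0 (δ1 / 2) ≤ δ1 / 2 := min_le_right _ _
  generalize min δ0 (δ1 / 2) = δ at hδ hR2 hδ2
  refine ⟨C * (volume (Metric.ball (0 : E u) r)).toReal, by positivity, ?_⟩
  intro g g' hD q ρ A hρ hA hAr hpair
  have hgc : ContinuousOn g (Metric.ball 0 r) := by
    have h1 : ContinuousOn (fun a => (g a : E K)) (Metric.ball 0 r) := by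
      intro a ha
      exact (hD.der a (by simpa using ha)).continuousAt.continuousWithinAt
    exact continuousOn_iff_continuous_domRestrict.2
      (Continuous.subtype_mk (continuousOn_iff_continuous_domRestrict.1 h1) _)
  obtain ⟨F, hF1, hF2, hF3⟩ := re_max D q g hM A δ hδ
  have hcov : A ⊆ ⋃ b ∈ F, (A ∩ {a : E u | ‖a‖ < r ∧
      ∀ j ≤ q, ‖(D.f^[j] (g a) : E K) - D.f^[j] (g b)‖ ≤ δ}) := by
    intro a ha
    obtain ⟨b, hb, hab⟩ := hF3 a ha
    simp only [mem_iUnion]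
    refine ⟨b, hb, ha, ?_, (reF_dist D q g a b δ hδ.le).1 hab⟩
    have := hAr a ha
    linarith
  have hone : ∀ b ∈ F, volume (A ∩ {a : E u | ‖a‖ < r ∧
      ∀ j ≤ q, ‖(D.f^[j] (g a) : E K) - D.f^[j] (g b)‖ ≤ δ}) ≤
      ENNReal.ofReal (C * Real.exp (ε * q) * ρ ^ u) * volume {a : E u | ‖a‖ < r ∧
        ∀ j ≤ q, ‖(D.f^[j] (g a) : E K) - D.f^[j] (g b)‖ ≤ δ / 2} := by
    intro b hb
    refine hR2 g g' hD q b (hAr b (hF1 b hb)) ρ _ hρ (hA.inter (re_meas D q g r δ hgc b)) ?_ ?_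
    · intro a ha
      exact ha.2
    · intro a ha a' ha'
      refine hpair a ha.1 a' ha'.1 ?_
      intro j hj
      have h1 := ha.2.2 j hj
      have h2 := ha'.2.2 j hj
      have h3 : (D.f^[j] (g a) : E K) - D.f^[j] (g a') =
          ((D.f^[j] (g a) : E K) - D.f^[j] (g b)) - ((D.f^[j] (g a') : E K) - D.f^[j] (g b)) := by
        abel
      rw [h3]
      refine (norm_sub_le _ _).trans ?_
      linarith
  have hdisj : (F : Set (E u)).PairwiseDisjoint (fun b => {a : E u | ‖a‖ < r ∧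
        ∀ j ≤ q, ‖(D.f^[j] (g a) : E K) - D.f^[j] (g b)‖ ≤ δ / 2}) := by
    intro b hb b' hb' hne
    rw [Function.onFun, Set.disjoint_left]
    intro a h1 h2
    have h3 := (reF_dist D q g a b (δ / 2) (by linarith)).2 h1.2
    have h4 := (reF_dist D q g a b' (δ / 2) (by linarith)).2 h2.2
    have h5 := hF2 b hb b' hb' hne
    have h6 := dist_triangle_left (reF D q g b) (reF D q g b') (reF D q g a)
    linarith
  calc volume A ≤ volume (⋃ b ∈ F, (A ∩ {a : E u | ‖a‖ < r ∧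
      ∀ j ≤ q, ‖(D.f^[j] (g a) : E K) - D.f^[j] (g b)‖ ≤ δ})) := measure_mono hcov
    _ ≤ ∑ b ∈ F, volume (A ∩ {a : E u | ‖a‖ < r ∧
      ∀ j ≤ q, ‖(D.f^[j] (g a) : E K) - D.f^[j] (g b)‖ ≤ δ}) := measure_biUnion_finset_le _ _
    _ ≤ ∑ b ∈ F, ENNReal.ofReal (C * Real.exp (ε * q) * ρ ^ u) * volume {a : E u | ‖a‖ < r ∧
        ∀ j ≤ q, ‖(D.f^[j] (g a) : E K) - D.f^[j] (g b)‖ ≤ δ / 2} := Finset.sum_le_sum hone
    _ = ENNReal.ofReal (C * Real.exp (ε * q) * ρ ^ u) * ∑ b ∈ F, volume {a : E u | ‖a‖ < r ∧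
        ∀ j ≤ q, ‖(D.f^[j] (g a) : E K) - D.f^[j] (g b)‖ ≤ δ / 2} := by rw [Finset.mul_sum]
    _ = ENNReal.ofReal (C * Real.exp (ε * q) * ρ ^ u) * volume (⋃ b ∈ F, {a : E u | ‖a‖ < r ∧
        ∀ j ≤ q, ‖(D.f^[j] (g a) : E K) - D.f^[j] (g b)‖ ≤ δ / 2}) := by
      rw [measure_biUnion_finset hdisj (fun b _ => re_meas D q g r (δ / 2) hgc b)]
    _ ≤ ENNReal.ofReal (C * Real.exp (ε * q) * ρ ^ u) * volume (Metric.ball (0 : E u) r) := by
      gcongr
      intro a ha
      simp only [mem_iUnion] at ha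
      obtain ⟨b, _, hb⟩ := ha
      simpa using hb.1
    _ = ENNReal.ofReal (C * (volume (Metric.ball (0 : E u) r)).toReal * Real.exp (ε * q) *
        ρ ^ u) := by
      have hfin : volume (Metric.ball (0 : E u) r) ≠ ⊤ := measure_ball_lt_top.ne
      rw [show C * (volume (Metric.ball (0 : E u) r)).toReal * Real.exp (ε * q) * ρ ^ u =
        (C * Real.exp (ε * q) * ρ ^ u) * (volume (Metric.ball (0 : E u) r)).toReal by ring,
        ENNReal.ofReal_mul (p := C * Real.exp (ε * q) * ρ ^ u) (by positivity),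
        ENNReal.ofReal_toReal hfin]

end Pool.Agent.Helper3.RZ
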