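import Pool.Agent.Helper56.RZ.GoalsC

/-!
# Project RZ2: charts with uniform bounds
-/

set_option autoImplicit false

namespace Pool.Agent.Helper3.RZ

open Pool.Agent.Helper56.RZ
open MeasureTheory Set Filter Topology
open scoped ContDiff

theorem uc : StmtUC := by
  intro N K M m hSV
  have key : ∃ R : ℝ, 1 ≤ R ∧ ∀ x ∈ M ∩ M, ∃ (c : Chart N K M) (z : E N), z ∈ c.V ∧ c.ψ z = x ∧
    ‖fderiv ℝ c.ψ z‖ ≤ R ∧ ‖fderiv ℝ c.φ (c.ψ z)‖ ≤ R ∧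
    ∀ A : Set (E N), MeasurableSet A → A ⊆ c.V → m (c.ψ '' A) = volume A := by
    refine hSV.compact.induction_on (p := fun S => ∃ R : ℝ, 1 ≤ R ∧ ∀ x ∈ S ∩ M,
      ∃ (c : Chart N K M) (z : E N), z ∈ c.V ∧ c.ψ z = x ∧
        ‖fderiv ℝ c.ψ z‖ ≤ R ∧ ‖fderiv ℝ c.φ (c.ψ z)‖ ≤ R ∧
        ∀ A : Set (E N), MeasurableSet A → A ⊆ c.V → m (c.ψ '' A) = volume A) ?_ ?_ ?_ ?_
    · exact ⟨1, le_rfl, fun x hx => absurd hx.1 (Set.notMem_empty x)⟩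
    · rintro s t hst ⟨R, hR, h⟩
      exact ⟨R, hR, fun x hx => h x ⟨hst hx.1, hx.2⟩⟩
    · rintro s t ⟨R, hR, h⟩ ⟨R', hR', h'⟩
      refine ⟨max R R', le_max_of_le_left hR, ?_⟩
      rintro x ⟨hx | hx, hxM⟩
      · obtain ⟨c, z, h1, h2, h3, h4, h5⟩ := h x ⟨hx, hxM⟩
        exact ⟨c, z, h1, h2, h3.trans (le_max_left _ _), h4.trans (le_max_left _ _), h5⟩
      · obtain ⟨c, z, h1, h2, h3, h4, h5⟩ := h' x ⟨hx, hxM⟩
        exact ⟨c, z, h1, h2, h3.trans (le_max_right _ _), h4.trans (le_max_right _ _), h5⟩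
    · intro x hx
      obtain ⟨c, hxW, hc⟩ := hSV.chart x hx
      have hφ : ContinuousAt c.φ x := (c.smoothφ.continuousOn).continuousAt (c.openW.mem_nhds hxW)
      have hV : c.φ x ∈ c.V := c.mapsφ x ⟨hx, hxW⟩
      have h1 : ContinuousAt (fun y => ‖fderiv ℝ c.φ y‖) x :=
        ((c.smoothφ.continuousOn_fderiv_of_isOpen c.openW (by simp)).continuousAt
          (c.openW.mem_nhds hxW)).norm
      have h2 : ContinuousAt (fun y => ‖fderiv ℝ c.ψ (c.φ y)‖) x := by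
        have h3 : ContinuousAt (fun z => fderiv ℝ c.ψ z) (c.φ x) :=
          (c.smoothψ.continuousOn_fderiv_of_isOpen c.openV (by simp)).continuousAt
            (c.openV.mem_nhds hV)
        exact (ContinuousAt.comp (g := fun z => fderiv ℝ c.ψ z) h3 hφ).norm
      have e1 : ∀ᶠ y in 𝓝 x, ‖fderiv ℝ c.φ y‖ < ‖fderiv ℝ c.φ x‖ + 1 :=
        h1.eventually_lt continuousAt_const (by simp)
      have e2 : ∀ᶠ y in 𝓝 x, ‖fderiv ℝ c.ψ (c.φ y)‖ < ‖fderiv ℝ c.ψ (c.φ x)‖ + 1 :=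
        h2.eventually_lt continuousAt_const (by simp)
      have e3 : ∀ᶠ y in 𝓝 x, y ∈ c.W := c.openW.mem_nhds hxW
      refine ⟨{y | ‖fderiv ℝ c.φ y‖ < ‖fderiv ℝ c.φ x‖ + 1 ∧
        ‖fderiv ℝ c.ψ (c.φ y)‖ < ‖fderiv ℝ c.ψ (c.φ x)‖ + 1 ∧ y ∈ c.W},
        mem_nhdsWithin_of_mem_nhds (e1.and (e2.and e3)),
        (‖fderiv ℝ c.φ x‖ + 1) + (‖fderiv ℝ c.ψ (c.φ x)‖ + 1), ?_, ?_⟩
      · have := norm_nonneg (fderiv ℝ c.φ x)
        have := norm_nonneg (fderiv ℝ c.ψ (c.φ x))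
        linarith
      · rintro y ⟨⟨y1, y2, y3⟩, hyM⟩
        have hr := c.right y ⟨hyM, y3⟩
        have n1 := norm_nonneg (fderiv ℝ c.φ x)
        have n2 := norm_nonneg (fderiv ℝ c.ψ (c.φ x))
        refine ⟨c, c.φ y, c.mapsφ y ⟨hyM, y3⟩, hr, ?_, ?_, hc⟩
        · linarith
        · rw [hr]; linarith
  obtain ⟨R, hR, h⟩ := key
  exact ⟨R, hR, fun x hx => h x ⟨hx, hx⟩⟩

end Pool.Agent.Helper3.RZ
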